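import Pool.Agent.Q257.BH.Mono

/-!
# Project BH (helper120), job WSET: a sparse set containing almost all values of all polynomials of large degree
-/

set_option autoImplicit false

namespace Pool.Agent.Q257.BH

open Finset Filter Polynomial Pool.Agent.Q120.BH Pool.Agent.Q120.ET
open scoped Topology

theorem va_le_iff {F : ℤ[X]} {n₀ : ℕ} (hM : Mono F n₀) {n k : ℕ} (hn : n₀ ≤ n) (h : va F n < 2 ^ k) : n < nu F n₀ k := by
  by_contra hcon
  obtain ⟨h1, h2, -⟩ := nu_spec hM k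
  rcases Nat.lt_or_ge (nu F n₀ k) n with h3 | h3
  · have := va_strict hM h1 h3
    omega
  · have h4 : nu F n₀ k = n := by omega
    rw [h4] at h2
    omega

/-- the values of one polynomial of large degree -/
theorem one_poly (F : ℤ[X]) (δ : ℝ) (hl : 0 < F.leadingCoeff) (hd : 1 < δ * F.natDegree) (ε : ℝ) (hε : 0 < ε) :
    ∃ N : ℕ, ∀ (k : ℕ) (T : Finset ℕ), (∀ v ∈ T, v ∈ block k ∧ ∃ n, N ≤ n ∧ va F n = v) →
      (T.card : ℝ) ≤ ε * (2 : ℝ) ^ (δ * k) := by
  classical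
  have hd1 : 1 ≤ F.natDegree := by
    by_contra h
    have h1 : F.natDegree = 0 := by omega
    rw [h1] at hd
    norm_num at hd
  obtain ⟨m, hm⟩ : ∃ m, m = F.natDegree := ⟨_, rfl⟩
  have hm0 : (0 : ℝ) < m := by rw [hm]; exact_mod_cast hd1
  obtain ⟨n₀, hM⟩ := exists_mono F hd1 hl
  have hν := nu_lim hM hd1 hl
  obtain ⟨c, hc⟩ : ∃ c, c = (rp F).leadingCoeff ^ (-(1 / (F.natDegree : ℝ))) := ⟨_, rfl⟩
  rw [← hc, ← hm] at hν
  have hc0 : 0 < c := by rw [hc]; exact Real.rpow_pos_of_pos (rp_lead_pos hl) _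
  have e1 := hν.eventually (gt_mem_nhds (show c < c + 1 by linarith))
  rw [← hm] at hd
  have hgap : 0 < δ - 1 / m := by
    have h1 : 1 / (m : ℝ) < δ := by
      rw [div_lt_iff₀ hm0]
      exact hd
    linarith
  -- the exponential gap
  have e2 : Tendsto (fun k : ℕ => (2 : ℝ) ^ ((δ - 1 / m) * (k : ℝ))) atTop atTop := by
    have h1 : Tendsto (fun k : ℕ => (δ - 1 / m) * (k : ℝ)) atTop atTop :=
      (tendsto_natCast_atTop_atTop (R := ℝ)).const_mul_atTop hgap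
    exact (tendsto_rpow_atTop_of_base_gt_one 2 (by norm_num)).comp h1
  have e3 := e2.eventually_ge_atTop (2 * (c + 1) / ε)
  obtain ⟨K, hK⟩ := eventually_atTop.1 (((tendsto_add_atTop_nat 1).eventually e1).and e3)
  refine ⟨n₀ + 2 ^ K, ?_⟩
  intro k T hT
  have hε2 : 0 ≤ ε * (2 : ℝ) ^ (δ * k) := by positivity
  rcases Nat.lt_or_ge k K with hkK | hkK
  · -- no values in the small blocks
    have h1 : T = ∅ := by
      rw [eq_empty_iff_forall_notMem]
      intro v hv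
      obtain ⟨h2, n, h3, h4⟩ := hT v hv
      unfold block at h2
      rw [mem_Ico] at h2
      have h7 : n₀ ≤ n := (Nat.le_add_right _ _).trans h3
      have h5 := va_ge hM h7
      have h6 : 2 ^ (k + 1) ≤ 2 ^ K := Nat.pow_le_pow_right (by norm_num) (by omega)
      omega
    rw [h1, card_empty]
    simpa using hε2
  · obtain ⟨h1, h2⟩ := hK k hkK
    have h3 : T ⊆ (range (nu F n₀ (k + 1))).image (va F) := by
      intro v hv
      obtain ⟨h4, n, h5, h6⟩ := hT v hv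
      unfold block at h4
      rw [mem_Ico] at h4
      rw [mem_image]
      refine ⟨n, mem_range.2 ?_, h6⟩
      apply va_le_iff hM ((Nat.le_add_right _ _).trans h5)
      rw [h6]
      exact h4.2
    have h4 : (T.card : ℝ) ≤ nu F n₀ (k + 1) := by
      have h5 := (card_le_card h3).trans card_image_le
      rw [card_range] at h5
      exact_mod_cast h5
    refine h4.trans ?_
    have h5 : (0 : ℝ) < (2 : ℝ) ^ (((k + 1 : ℕ) : ℝ) / m) := by positivity
    rw [div_lt_iff₀ h5] at h1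
    refine h1.le.trans ?_
    have h6 : (2 : ℝ) ^ (((k + 1 : ℕ) : ℝ) / m) ≤ 2 * (2 : ℝ) ^ ((k : ℝ) / m) := by
      have h7 : (((k + 1 : ℕ) : ℝ) / m) = (k : ℝ) / m + 1 / m := by
        push_cast
        ring
      rw [h7, Real.rpow_add (by norm_num), mul_comm]
      have h8 : (2 : ℝ) ^ (1 / (m : ℝ)) ≤ 2 := by
        calc (2 : ℝ) ^ (1 / (m : ℝ)) ≤ (2 : ℝ) ^ (1 : ℝ) := by
              apply Real.rpow_le_rpow_of_exponent_le (by norm_num)
              rw [div_le_one hm0, hm]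
              exact_mod_cast hd1
          _ = 2 := Real.rpow_one 2
      gcongr
    have h7 : (2 : ℝ) ^ (δ * k) = (2 : ℝ) ^ ((δ - 1 / m) * (k : ℝ)) * (2 : ℝ) ^ ((k : ℝ) / m) := by
      rw [← Real.rpow_add (by norm_num)]
      congr 1
      ring
    rw [h7]
    have h8 : 2 * (c + 1) ≤ ε * (2 : ℝ) ^ ((δ - 1 / m) * (k : ℝ)) := by
      rw [div_le_iff₀ hε] at h2
      linarith
    calc (c + 1) * (2 : ℝ) ^ (((k + 1 : ℕ) : ℝ) / m) ≤ (c + 1) * (2 * (2 : ℝ) ^ ((k : ℝ) / m)) := by gcongr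
      _ = 2 * (c + 1) * (2 : ℝ) ^ ((k : ℝ) / m) := by ring
      _ ≤ ε * (2 : ℝ) ^ ((δ - 1 / m) * (k : ℝ)) * (2 : ℝ) ^ ((k : ℝ) / m) := by gcongr
      _ = ε * ((2 : ℝ) ^ ((δ - 1 / m) * (k : ℝ)) * (2 : ℝ) ^ ((k : ℝ) / m)) := by ring

theorem countable_poly : Countable ℤ[X] := by
  rw [← Cardinal.mk_le_aleph0_iff]
  have h1 := Polynomial.cardinalMk_le_max (R := ℤ)
  simpa using h1

theorem sum_half (J : Finset ℕ) : ∑ j ∈ J, (1 : ℝ) / 2 ^ (j + 1) ≤ 1 := by
  classical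
  obtain ⟨M, hM⟩ : ∃ M, J ⊆ range M := by
    refine ⟨J.sup id + 1, fun j hj => ?_⟩
    rw [mem_range]
    have := le_sup (f := id) hj
    simp only [id] at this
    omega
  refine (sum_le_sum_of_subset_of_nonneg hM (fun j _ _ => by positivity)).trans ?_
  have h1 : ∀ M : ℕ, ∑ j ∈ range M, (1 : ℝ) / 2 ^ (j + 1) = 1 - 1 / 2 ^ M := by
    intro M
    induction M with
    | zero => simp
    | succ n ih =>
      rw [sum_range_succ, ih, pow_succ]
      field_simp
      ring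
  rw [h1]
  have : (0 : ℝ) < 1 / 2 ^ M := by positivity
  linarith

theorem t_WSET : J_WSET := by
  classical
  intro δ hδ
  have := countable_poly
  obtain ⟨g, hg⟩ := exists_surjective_nat ℤ[X]
  have hex : ∀ j : ℕ, ∃ N : ℕ, (0 < (g j).leadingCoeff ∧ 1 < δ * (g j).natDegree) →
      ∀ (k : ℕ) (T : Finset ℕ), (∀ v ∈ T, v ∈ block k ∧ ∃ n, N ≤ n ∧ va (g j) n = v) →
      (T.card : ℝ) ≤ 1 / 2 ^ (j + 1) * (2 : ℝ) ^ (δ * k) := by
    intro j
    by_cases h : 0 < (g j).leadingCoeff ∧ 1 < δ * (g j).natDegree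
    · obtain ⟨N, hN⟩ := one_poly (g j) δ h.1 h.2 (1 / 2 ^ (j + 1)) (by positivity)
      exact ⟨N, fun _ => hN⟩
    · exact ⟨0, fun h' => absurd h' h⟩
  choose N hN using hex
  refine ⟨{v | ∃ j, (0 < (g j).leadingCoeff ∧ 1 < δ * (g j).natDegree) ∧ ∃ n, N j ≤ n ∧ va (g j) n = v}, ?_, ?_⟩
  · intro k
    obtain ⟨T, hT⟩ : ∃ T, T = (block k).filter (fun n => n ∈ {v | ∃ j, (0 < (g j).leadingCoeff ∧
      1 < δ * (g j).natDegree) ∧ ∃ n, N j ≤ n ∧ va (g j) n = v}) := ⟨_, rfl⟩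
    rw [← hT]
    have hTm : ∀ v ∈ T, v ∈ block k ∧ ∃ j, (0 < (g j).leadingCoeff ∧
      1 < δ * (g j).natDegree) ∧ ∃ n, N j ≤ n ∧ va (g j) n = v := by
      intro v hv
      rw [hT, mem_filter] at hv
      exact hv
    obtain ⟨J, hJ⟩ : ∃ J : ℕ → ℕ, ∀ v ∈ T, (0 < (g (J v)).leadingCoeff ∧
      1 < δ * (g (J v)).natDegree) ∧ ∃ n, N (J v) ≤ n ∧ va (g (J v)) n = v := by
      refine ⟨fun v => if h : v ∈ T then (hTm v h).2.choose else 0, fun v hv => ?_⟩
      simp only [dif_pos hv]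
      exact (hTm v hv).2.choose_spec
    have h1 : T.card = ∑ j ∈ T.image J, (T.filter (fun v => J v = j)).card :=
      card_eq_sum_card_image J T
    rw [h1]
    push_cast
    have h2 : ∀ j ∈ T.image J, ((T.filter (fun v => J v = j)).card : ℝ) ≤ 1 / 2 ^ (j + 1) * (2 : ℝ) ^ (δ * k) := by
      intro j hj
      rw [mem_image] at hj
      obtain ⟨v, hv, rfl⟩ := hj
      apply hN (J v) (hJ v hv).1 k
      intro w hw
      rw [mem_filter] at hw
      refine ⟨(hTm w hw.1).1, ?_⟩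
      have h3 := (hJ w hw.1).2
      rw [hw.2] at h3
      exact h3
    refine (sum_le_sum h2).trans ?_
    rw [← sum_mul]
    have h3 := sum_half (T.image J)
    have h4 : (0 : ℝ) ≤ (2 : ℝ) ^ (δ * k) := by positivity
    nlinarith
  · intro F hl hd
    obtain ⟨j, rfl⟩ := hg F
    filter_upwards [eventually_ge_atTop (N j)] with n hn
    exact ⟨j, ⟨hl, hd⟩, n, hn, rfl⟩

end Pool.Agent.Q257.BH
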