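import Pool.Agent.Q257.BH.Wset
import Pool.Agent.Q120.HL.H2

/-!
# Project BH (helper120), job BMEAN: the expected number of values in a block
-/

set_option autoImplicit false

namespace Pool.Agent.Q257.BH

open Finset Filter Polynomial Pool.Agent.Q120.BH Pool.Agent.Q120.ET Pool.Agent.Q120.CL Pool.Agent.Q120.MG
open scoped Topology

/-- the values without prime factors below `z` -/
def AF (z : ℕ) (F : ℤ[X]) (n : ℕ) : Prop := ∀ p ∈ (range z).filter Nat.Prime, ¬ (p : ℤ) ∣ F.eval (n : ℤ)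

open Classical in
/-- their number in `[a, a + t)` -/
noncomputable def NF (z : ℕ) (F : ℤ[X]) (a t : ℕ) : ℕ := ((Ico a (a + t)).filter (AF z F)).card

/-- the density -/
noncomputable def dF (z : ℕ) (F : ℤ[X]) : ℝ := ∏ p ∈ (range z).filter Nat.Prime, (1 - (rho F p : ℝ) / p)

open Classical in
/-- the number of roots (for both ways to read the definition of `rho`) -/
theorem rho_eq (F : ℤ[X]) (q : ℕ) : rho F q = ((range q).filter (fun n : ℕ => (q : ℤ) ∣ F.eval (n : ℤ))).card := by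
  unfold rho
  first
  | rfl
  | (simp only [Bind.bind, Pure.pure]
     symm
     apply card_nbij' (fun n : ℕ => (n : ℤ)) (fun n : ℤ => n.toNat)
     · intro n hn
       rw [mem_coe, mem_filter, mem_range] at hn
       rw [mem_coe, mem_filter, @Finset.mem_sup _ _ (fun a b => Classical.propDecidable (a = b))]
       exact ⟨⟨n, mem_range.2 hn.1, mem_singleton_self _⟩, hn.2⟩
     · intro n hn
       rw [mem_coe, mem_filter, @Finset.mem_sup _ _ (fun a b => Classical.propDecidable (a = b))] at hn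
       obtain ⟨⟨a, ha, h1⟩, h2⟩ := hn
       rw [mem_singleton] at h1
       rw [h1] at h2 ⊢
       rw [mem_coe, mem_filter]
       exact ⟨ha, h2⟩
     · intro n _
       rfl
     · intro n hn
       rw [mem_coe, mem_filter, @Finset.mem_sup _ _ (fun a b => Classical.propDecidable (a = b))] at hn
       obtain ⟨⟨a, ha, h1⟩, h2⟩ := hn
       rw [mem_singleton] at h1
       rw [h1]
       rfl)

theorem rho_le (F : ℤ[X]) (p : ℕ) : rho F p ≤ p := by
  classical
  rw [rho_eq]
  refine (card_filter_le _ _).trans ?_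
  rw [card_range]

theorem facF_nonneg (F : ℤ[X]) {p : ℕ} (hp : 0 < p) : 0 ≤ 1 - (rho F p : ℝ) / p := by
  have hp0 : (0 : ℝ) < p := by exact_mod_cast hp
  have h1 : (rho F p : ℝ) / p ≤ 1 := by
    rw [div_le_one hp0]
    exact_mod_cast rho_le F p
  linarith

theorem dF_nonneg (z : ℕ) (F : ℤ[X]) : 0 ≤ dF z F := prod_nonneg (fun _ hp => facF_nonneg F (mem_filter.1 hp).2.pos)

theorem dF_le_one (z : ℕ) (F : ℤ[X]) : dF z F ≤ 1 := by
  refine prod_le_one (fun _ hp => facF_nonneg F (mem_filter.1 hp).2.pos) (fun p hp => ?_)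
  have : 0 ≤ (rho F p : ℝ) / p := by positivity
  linarith

theorem Cz_eq (z : ℕ) (F : ℤ[X]) : Cz F z = dF z F / Vf z := by
  unfold Cz dF Vf
  rw [prod_div_distrib]

theorem AF_mod (F : ℤ[X]) (p n : ℕ) : ((p : ℤ) ∣ F.eval (n : ℤ) ↔ (p : ℤ) ∣ F.eval ((n % p : ℕ) : ℤ)) := by
  have h1 : ((n : ℤ) - ((n % p : ℕ) : ℤ)) ∣ F.eval (n : ℤ) - F.eval ((n % p : ℕ) : ℤ) := sub_dvd_eval_sub _ _ F
  have h2 : (p : ℤ) ∣ (n : ℤ) - ((n % p : ℕ) : ℤ) := Nat.modEq_iff_dvd.1 (Nat.mod_modEq n p)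
  have h3 := h2.trans h1
  constructor
  · intro h
    have := dvd_sub h h3
    rwa [sub_sub_cancel] at this
  · intro h
    have := dvd_add h3 h
    rwa [sub_add_cancel] at this

theorem NF_add (z : ℕ) (F : ℤ[X]) (a s t : ℕ) : NF z F a (s + t) = NF z F a s + NF z F (a + s) t := by
  classical
  unfold NF
  rw [← card_union_of_disjoint]
  · congr 1
    rw [← filter_union]
    congr 1
    ext n
    simp only [mem_union, mem_Ico]
    omega
  · rw [Finset.disjoint_left]
    intro n hn hn'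
    rw [mem_filter, mem_Ico] at hn hn'
    omega

theorem NF_mono (z : ℕ) (F : ℤ[X]) (a : ℕ) {s t : ℕ} (h : s ≤ t) : NF z F a s ≤ NF z F a t := by
  obtain ⟨r, rfl⟩ := Nat.exists_eq_add_of_le h
  rw [NF_add]
  omega

theorem NF_period (z : ℕ) (F : ℤ[X]) (a : ℕ) : (NF z F a (PQ z) : ℝ) = dF z F * PQ z := by
  classical
  have hper : Function.Periodic (AF z F) (PQ z) := by
    intro n
    unfold AF
    rw [eq_iff_iff]
    refine forall_congr' (fun p => forall_congr' (fun hp => ?_))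
    have h1 : p ∣ PQ z := dvd_prod_of_mem _ hp
    obtain ⟨c, hc⟩ := h1
    rw [not_iff_not, AF_mod F p (n + PQ z), AF_mod F p n, hc, Nat.add_mul_mod_self_left]
  unfold NF
  rw [Nat.filter_Ico_card_eq_of_periodic a (PQ z) (AF z F) hper, Nat.count_eq_card_filter_range]
  have h2 := Pool.Agent.H373R2.T7.crt_card (fun p c => ¬ (p : ℤ) ∣ F.eval (c : ℤ)) ((range z).filter Nat.Prime)
    (fun p hp => (mem_filter.1 hp).2)
  have h3 : ((range (PQ z)).filter (AF z F)).card =
      ((range (∏ p ∈ (range z).filter Nat.Prime, p)).filter (fun n => ∀ p ∈ (range z).filter Nat.Prime,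
        ¬ (p : ℤ) ∣ F.eval ((n % p : ℕ) : ℤ))).card := by
    congr 1
    refine filter_congr (fun n _ => ?_)
    unfold AF
    exact forall_congr' (fun p => forall_congr' (fun hp => by rw [not_iff_not, AF_mod F p n]))
  rw [h3, h2]
  push_cast
  unfold dF PQ
  push_cast
  rw [← prod_mul_distrib]
  refine prod_congr rfl (fun p hp => ?_)
  have hp0 := (mem_filter.1 hp).2.pos
  have hp0' : (0 : ℝ) < p := by exact_mod_cast hp0
  have h4 : ((range p).filter (fun c : ℕ => ¬ (p : ℤ) ∣ F.eval (c : ℤ))).card = p - rho F p := by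
    have h5 := card_filter_add_card_filter_not (s := range p) (fun c : ℕ => (p : ℤ) ∣ F.eval (c : ℤ))
    rw [card_range] at h5
    rw [rho_eq]
    omega
  rw [h4, Nat.cast_sub (rho_le F p)]
  field_simp

theorem NF_near (z : ℕ) (F : ℤ[X]) (a t : ℕ) : |(NF z F a t : ℝ) - dF z F * t| ≤ PQ z := by
  have hP := PQ_pos z
  have hP0 : (0 : ℝ) < PQ z := by exact_mod_cast hP
  have hmul : ∀ q : ℕ, (NF z F a (PQ z * q) : ℝ) = dF z F * (PQ z * q) := by
    intro q
    induction q with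
    | zero =>
      unfold NF
      simp
    | succ q ih =>
      rw [mul_add, mul_one, NF_add]
      push_cast
      rw [ih, NF_period]
      ring
  have h1 : PQ z * (t / PQ z) ≤ t := Nat.mul_div_le t (PQ z)
  have h2 : t < PQ z * (t / PQ z + 1) := Nat.lt_mul_div_succ t hP
  have h3 : (NF z F a (PQ z * (t / PQ z)) : ℝ) ≤ NF z F a t := by exact_mod_cast NF_mono z F a h1
  have h4 : (NF z F a t : ℝ) ≤ NF z F a (PQ z * (t / PQ z + 1)) := by exact_mod_cast NF_mono z F a h2.le
  rw [hmul] at h3 h4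
  have h5 : (t : ℝ) < PQ z * ((t / PQ z : ℕ) + 1 : ℝ) := by exact_mod_cast h2
  have h6 : (PQ z : ℝ) * ((t / PQ z : ℕ) : ℝ) ≤ t := by exact_mod_cast h1
  have hd := dF_nonneg z F
  have hd1 := dF_le_one z F
  push_cast at h4
  rw [abs_le]
  constructor
  · nlinarith
  · nlinarith

/-- `8 ^ z k` is small -/
theorem eight_small (z : ℕ → ℕ) (hz : Tendsto (fun k : ℕ => (z k : ℝ) / k) atTop (𝓝 0)) (m : ℕ) (hm : 1 ≤ m) (ε : ℝ) (hε : 0 < ε) :
    ∀ᶠ k : ℕ in atTop, (8 : ℝ) ^ (z k) ≤ ε * (2 : ℝ) ^ ((k : ℝ) / m) := by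
  have hm0 : (0 : ℝ) < m := by exact_mod_cast hm
  have e1 := hz.eventually (gt_mem_nhds (show (0 : ℝ) < 1 / (6 * m) by positivity))
  have e2 : Tendsto (fun k : ℕ => (2 : ℝ) ^ ((k : ℝ) / (2 * m))) atTop atTop := by
    have h1 : Tendsto (fun k : ℕ => (k : ℝ) / (2 * m)) atTop atTop :=
      (tendsto_natCast_atTop_atTop (R := ℝ)).atTop_div_const (by positivity)
    exact (tendsto_rpow_atTop_of_base_gt_one 2 (by norm_num)).comp h1
  filter_upwards [e1, e2.eventually_ge_atTop (1 / ε), eventually_gt_atTop 0] with k h1 h2 h3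
  have hk0 : (0 : ℝ) < k := by exact_mod_cast h3
  have h4 : 3 * (z k : ℝ) ≤ (k : ℝ) / (2 * m) := by
    rw [div_lt_div_iff₀ hk0 (by positivity)] at h1
    rw [le_div_iff₀ (by positivity)]
    nlinarith
  have h5 : (8 : ℝ) ^ (z k) ≤ (2 : ℝ) ^ ((k : ℝ) / (2 * m)) := by
    have h6 : (8 : ℝ) ^ (z k) = (2 : ℝ) ^ (3 * (z k : ℝ)) := by
      rw [Real.rpow_mul (by norm_num), Real.rpow_natCast]
      norm_num
    rw [h6]
    exact Real.rpow_le_rpow_of_exponent_le (by norm_num) h4
  have h6 : (2 : ℝ) ^ ((k : ℝ) / m) = (2 : ℝ) ^ ((k : ℝ) / (2 * m)) * (2 : ℝ) ^ ((k : ℝ) / (2 * m)) := by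
    rw [← Real.rpow_add (by norm_num)]
    congr 1
    field_simp
    ring
  rw [h6]
  have h7 : 0 < (2 : ℝ) ^ ((k : ℝ) / (2 * m)) := by positivity
  have h8 : 1 ≤ ε * (2 : ℝ) ^ ((k : ℝ) / (2 * m)) := by
    rw [div_le_iff₀ hε] at h2
    linarith
  nlinarith

theorem t_BMEAN : J_BMEAN := by
  classical
  intro _ z F m C n₀ hG hM hz hzk ε hε
  have hL : 0 < Real.log 2 := Real.log_pos (by norm_num)
  have hl := hG.lead
  have hd : 1 ≤ F.natDegree := by rw [hG.deg]; exact hG.pos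
  have hm0 : (0 : ℝ) < m := by exact_mod_cast hG.pos
  have hν := nu_lim hM hd hl
  obtain ⟨c, hc⟩ : ∃ c, c = (rp F).leadingCoeff ^ (-(1 / (F.natDegree : ℝ))) := ⟨_, rfl⟩
  rw [← hc, hG.deg] at hν
  have hc0 : 0 < c := by rw [hc]; exact Real.rpow_pos_of_pos (rp_lead_pos hl) _
  obtain ⟨B, hB⟩ : ∃ B, B = 2 * (c + 1) := ⟨_, rfl⟩
  have hB0 : 0 < B := by rw [hB]; positivity
  obtain ⟨η, hη⟩ : ∃ η, η = ε * Real.log 2 / (2 * B) := ⟨_, rfl⟩
  have hη0 : 0 < η := by rw [hη]; positivity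
  have hCz : Tendsto (fun k => Cz F (z k)) atTop (𝓝 C) := hG.conv.comp hz
  have hρ : Tendsto (fun k : ℕ => (k : ℝ) / (k + 1)) atTop (𝓝 1) := tendsto_natCast_div_add_atTop 1
  have hCρ : Tendsto (fun k : ℕ => (k : ℝ) / (k + 1) * Cz F (z k)) atTop (𝓝 C) := by
    have := hρ.mul hCz
    rwa [one_mul] at this
  have e1 := hCz.eventually (gt_mem_nhds (show C < C + η by linarith))
  have e2 := hCρ.eventually (lt_mem_nhds (show C - η < C by linarith))
  have e3 := (tendsto_add_atTop_nat 1).eventually (hν.eventually (gt_mem_nhds (show c < c + 1 by linarith)))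
  have e4 := eight_small z hzk m hG.pos (ε * Real.log 2 / 2) (by positivity)
  have e5 := (q_small hzk).eventually (gt_mem_nhds (show (0 : ℝ) < 1 by norm_num))
  filter_upwards [e1, e2, e3, e4, e5, eventually_ge_atTop 1] with k h1 h2 h3 h4 h5 hk1 a b hna hab hin
  have hk0 : (0 : ℝ) < k := by
    have : 0 < k := by omega
    exact_mod_cast this
  obtain ⟨V, hV⟩ : ∃ V, V = Vf (z k) := ⟨_, rfl⟩
  have hV0 : 0 < V := by rw [hV]; exact Vf_pos _
  have hV1 : 1 / ((z k : ℝ) + 1) ≤ V := by rw [hV]; exact le_Vf2 _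
  obtain ⟨K, hK⟩ : ∃ K, K = (k : ℝ) * Real.log 2 := ⟨_, rfl⟩
  obtain ⟨K1, hK1⟩ : ∃ K1, K1 = ((k : ℝ) + 1) * Real.log 2 := ⟨_, rfl⟩
  have hK0 : 0 < K := by rw [hK]; positivity
  have hK10 : 0 < K1 := by rw [hK1]; positivity
  have hKK : K ≤ K1 := by rw [hK, hK1]; nlinarith
  have hq : 1 ≤ V * K := by
    rw [← hV, ← hK] at h5
    rw [div_lt_one (by positivity)] at h5
    exact h5.le
  obtain ⟨w, hw⟩ : ∃ w, w = (2 : ℝ) ^ ((k : ℝ) / m) := ⟨_, rfl⟩
  have hw0 : 0 < w := by rw [hw]; positivity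
  rw [← hw] at h4 ⊢
  rw [← hK]
  -- the rough values
  obtain ⟨W, hW⟩ : ∃ W, W = (Ico a b).filter fun n => Rough (z k) (va F n) := ⟨_, rfl⟩
  have hcount : |(W.card : ℝ) - dF (z k) F * ((b : ℝ) - a)| ≤ PQ (z k) := by
    have g1 := NF_near (z k) F a (b - a)
    have g2 : NF (z k) F a (b - a) = W.card := by
      unfold NF
      rw [hW, Nat.add_sub_cancel' hab]
      congr 1
      apply filter_congr
      intro n hn
      rw [mem_Ico] at hn
      have g3 := va_cast hM (n := n) (by omega)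
      unfold AF Rough
      constructor
      · intro h p hp hpz hd
        apply h p (mem_filter.2 ⟨mem_range.2 hpz, hp⟩)
        rw [← g3]
        exact Int.natCast_dvd_natCast.2 hd
      · intro h p hp hd
        rw [mem_filter, mem_range] at hp
        apply h p hp.2 hp.1
        rw [← g3] at hd
        exact Int.natCast_dvd_natCast.1 hd
    rw [g2, Nat.cast_sub hab] at g1
    exact g1
  have hin' : ∀ n ∈ Ico a b, 2 ^ k ≤ va F n ∧ va F n < 2 ^ (k + 1) := by
    intro n hn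
    have := hin n hn
    unfold block at this
    rw [mem_Ico] at this
    exact this
  have hup : ex (pr z) F a b ≤ W.card * (1 / (V * K)) := by
    unfold Pool.Agent.Q120.BH.ex
    rw [hW, card_filter]
    push_cast
    rw [sum_mul]
    refine sum_le_sum fun n hn => ?_
    by_cases hrough : Rough (z k) (va F n)
    · rw [if_pos hrough, one_mul, hV, hK]
      exact pr_le hk1 (hin' n hn).1 (hin' n hn).2
    · rw [if_neg hrough, zero_mul, pr_zero (hin' n hn).1 (hin' n hn).2 hrough]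
  have hlo : W.card * (1 / (V * K1)) ≤ ex (pr z) F a b := by
    unfold Pool.Agent.Q120.BH.ex
    rw [hW, card_filter]
    push_cast
    rw [sum_mul]
    refine sum_le_sum fun n hn => ?_
    by_cases hrough : Rough (z k) (va F n)
    · rw [if_pos hrough, one_mul, hV, hK1]
      rw [hV, hK] at hq
      exact le_pr hk1 hq (hin' n hn).1 (hin' n hn).2 hrough
    · rw [if_neg hrough, zero_mul]
      exact pr_nonneg z _
  -- the length
  have hba0 : 0 ≤ (b : ℝ) - a := by
    have : (a : ℝ) ≤ b := by exact_mod_cast hab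
    linarith
  have hba1 : (b : ℝ) - a ≤ B * w := by
    rcases Nat.lt_or_ge a b with g1 | g1
    · have g2 : b - 1 < nu F n₀ (k + 1) := by
        apply va_le_iff hM (by omega)
        exact (hin' (b - 1) (by rw [mem_Ico]; omega)).2
      have g3 : (b : ℝ) ≤ nu F n₀ (k + 1) := by
        have : b ≤ nu F n₀ (k + 1) := by omega
        exact_mod_cast this
      have g4 : (0 : ℝ) < (2 : ℝ) ^ (((k + 1 : ℕ) : ℝ) / m) := by positivity
      rw [div_lt_iff₀ g4] at h3
      have g5 : (2 : ℝ) ^ (((k + 1 : ℕ) : ℝ) / m) ≤ 2 * w := by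
        have h7 : (((k + 1 : ℕ) : ℝ) / m) = (k : ℝ) / m + 1 / m := by
          push_cast
          ring
        rw [h7, Real.rpow_add (by norm_num), ← hw, mul_comm]
        have h8 : (2 : ℝ) ^ (1 / (m : ℝ)) ≤ 2 := by
          calc (2 : ℝ) ^ (1 / (m : ℝ)) ≤ (2 : ℝ) ^ (1 : ℝ) := by
                apply Real.rpow_le_rpow_of_exponent_le (by norm_num)
                rw [div_le_one hm0]
                exact_mod_cast hG.pos
            _ = 2 := Real.rpow_one 2
        gcongr
      have g6 : (0 : ℝ) ≤ a := Nat.cast_nonneg _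
      have g7 : (c + 1) * (2 : ℝ) ^ (((k + 1 : ℕ) : ℝ) / m) ≤ (c + 1) * (2 * w) := by gcongr
      rw [hB]
      linarith
    · have g2 : a = b := by omega
      rw [g2, sub_self]
      positivity
  -- the error
  obtain ⟨Q, hQ⟩ : ∃ Q : ℝ, Q = PQ (z k) := ⟨_, rfl⟩
  have hQ0 : 0 ≤ Q := by rw [hQ]; exact Nat.cast_nonneg _
  have hQV : Q / V ≤ ε * Real.log 2 / 2 * w := by
    refine le_trans ?_ h4
    have g1 : Q ≤ 4 ^ (z k) := by rw [hQ]; exact_mod_cast PQ_le (z k)
    have g2 : 1 / V ≤ (z k : ℝ) + 1 := by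
      rw [div_le_iff₀ hV0]
      rw [div_le_iff₀ (by positivity)] at hV1
      linarith
    have g3 : (z k : ℝ) + 1 ≤ 2 ^ (z k) := by
      have : z k + 1 ≤ 2 ^ (z k) := Nat.lt_two_pow_self
      exact_mod_cast this
    calc Q / V = Q * (1 / V) := by ring
      _ ≤ 4 ^ (z k) * 2 ^ (z k) := mul_le_mul g1 (g2.trans g3) (by positivity) (by positivity)
      _ = 8 ^ (z k) := by
          rw [← mul_pow]
          norm_num
  have hde : dF (z k) F = Cz F (z k) * V := by
    rw [Cz_eq, ← hV]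
    field_simp
  rw [hde, ← hQ] at hcount
  rw [abs_le] at hcount
  have hCz0 : 0 ≤ Cz F (z k) := by
    rw [Cz_eq]
    exact div_nonneg (dF_nonneg _ _) (Vf_pos _).le
  have hηB : η * (B * w) / K = ε / 2 * (w / k) := by
    rw [hη, hK]
    field_simp
  have hQK : Q / V / K ≤ ε / 2 * (w / k) := by
    calc Q / V / K ≤ ε * Real.log 2 / 2 * w / K := by gcongr
      _ = ε / 2 * (w / k) := by
          rw [hK]
          field_simp
  rw [abs_le]
  constructor
  · -- lower bound
    have g1 : (Cz F (z k) * V * ((b : ℝ) - a) - Q) * (1 / (V * K1)) ≤ ex (pr z) F a b := by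
      refine le_trans (mul_le_mul_of_nonneg_right ?_ (by positivity)) hlo
      linarith [hcount.1]
    have g2 : (Cz F (z k) * V * ((b : ℝ) - a) - Q) * (1 / (V * K1)) =
        (k : ℝ) / (k + 1) * Cz F (z k) * ((b : ℝ) - a) / K - Q / V / K1 := by
      rw [hK, hK1]
      field_simp
    rw [g2] at g1
    have g3 : Q / V / K1 ≤ Q / V / K := by gcongr
    have g4 : (C - η) * ((b : ℝ) - a) / K ≤ (k : ℝ) / (k + 1) * Cz F (z k) * ((b : ℝ) - a) / K := by gcongr
    have g5 : η * ((b : ℝ) - a) / K ≤ η * (B * w) / K := by gcongr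
    have g6 : (C - η) * ((b : ℝ) - a) / K = C * ((b : ℝ) - a) / K - η * ((b : ℝ) - a) / K := by ring
    linarith
  · -- upper bound
    have g1 : ex (pr z) F a b ≤ (Cz F (z k) * V * ((b : ℝ) - a) + Q) * (1 / (V * K)) := by
      refine le_trans hup (mul_le_mul_of_nonneg_right ?_ (by positivity))
      linarith [hcount.2]
    have g2 : (Cz F (z k) * V * ((b : ℝ) - a) + Q) * (1 / (V * K)) =
        Cz F (z k) * ((b : ℝ) - a) / K + Q / V / K := by
      field_simp
    rw [g2] at g1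
    have g4 : Cz F (z k) * ((b : ℝ) - a) / K ≤ (C + η) * ((b : ℝ) - a) / K := by gcongr
    have g5 : η * ((b : ℝ) - a) / K ≤ η * (B * w) / K := by gcongr
    have g6 : (C + η) * ((b : ℝ) - a) / K = C * ((b : ℝ) - a) / K + η * ((b : ℝ) - a) / K := by ring
    linarith

end Pool.Agent.Q257.BH
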