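import Pool.Agent.Q120.BH.Stm

/-!
# Project BH (helper120), job MONO: integer polynomials in the dyadic blocks
-/

set_option autoImplicit false

namespace Pool.Agent.Q257.BH

open Finset Filter Polynomial Pool.Agent.Q120.BH
open scoped Topology

/-- the leading term -/
theorem lead_lim (P : ℝ[X]) (hP : P ≠ 0) :
    Tendsto (fun x : ℝ => P.eval x / x ^ P.natDegree) atTop (𝓝 P.leadingCoeff) := by
  have h1 := Polynomial.div_tendsto_leadingCoeff_div_of_degree_eq P (X ^ P.natDegree) (by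
    rw [degree_X_pow, degree_eq_natDegree hP])
  rw [(monic_X_pow P.natDegree).leadingCoeff, div_one] at h1
  refine h1.congr (fun x => ?_)
  rw [eval_pow, eval_X]

theorem ev_pos (P : ℝ[X]) (hP : 0 < P.leadingCoeff) : ∀ᶠ x : ℝ in atTop, 0 < P.eval x := by
  have hP0 : P ≠ 0 := by
    intro h
    rw [h, leadingCoeff_zero] at hP
    exact lt_irrefl _ hP
  filter_upwards [(lead_lim P hP0).eventually (lt_mem_nhds hP), eventually_gt_atTop 0] with x h1 h2
  have h3 : 0 < x ^ P.natDegree := by positivity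
  exact (div_pos_iff_of_pos_right h3).1 h1

/-- the real polynomial -/
noncomputable def rp (F : ℤ[X]) : ℝ[X] := F.map (Int.castRingHom ℝ)

theorem rp_eval (F : ℤ[X]) (n : ℤ) : (rp F).eval (n : ℝ) = ((F.eval n : ℤ) : ℝ) := by
  unfold rp
  have h := Polynomial.eval_intCast_map (Int.castRingHom ℝ) F n
  rw [h]
  rfl

theorem rp_deg (F : ℤ[X]) : (rp F).natDegree = F.natDegree := by
  unfold rp
  exact natDegree_map_eq_of_injective (RingHom.injective_int _) F

theorem rp_lead (F : ℤ[X]) : (rp F).leadingCoeff = ((F.leadingCoeff : ℤ) : ℝ) := by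
  unfold rp
  rw [leadingCoeff_map_of_injective (RingHom.injective_int _)]
  rfl

theorem rp_lead_pos {F : ℤ[X]} (h : 0 < F.leadingCoeff) : 0 < (rp F).leadingCoeff := by
  rw [rp_lead]
  exact_mod_cast h

theorem rp_ne {F : ℤ[X]} (h : 0 < F.leadingCoeff) : rp F ≠ 0 := by
  intro h0
  have h1 := rp_lead_pos h
  rw [h0, leadingCoeff_zero] at h1
  exact lt_irrefl _ h1

/-- the values are eventually positive and increasing -/
theorem exists_mono (F : ℤ[X]) (hd : 1 ≤ F.natDegree) (hl : 0 < F.leadingCoeff) : ∃ n₀ : ℕ, Mono F n₀ := by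
  have hP := rp_lead_pos hl
  have hdeg : 1 ≤ (rp F).natDegree := by rw [rp_deg]; exact hd
  have hder : 0 < (derivative (rp F)).leadingCoeff := by
    have h1 : (derivative (rp F)).natDegree = (rp F).natDegree - 1 :=
      natDegree_derivative _
    unfold leadingCoeff
    rw [h1, coeff_derivative]
    have h2 : (rp F).natDegree - 1 + 1 = (rp F).natDegree := by omega
    rw [h2]
    have h3 : 0 < (rp F).coeff (rp F).natDegree := hP
    positivity
  obtain ⟨x0, hx0⟩ := eventually_atTop.1 ((ev_pos _ hP).and (ev_pos _ hder))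
  have hmono : StrictMonoOn (fun x : ℝ => (rp F).eval x) (Set.Ici x0) := by
    apply strictMonoOn_of_deriv_pos (convex_Ici x0) (rp F).continuous.continuousOn
    intro x hx
    rw [interior_Ici] at hx
    rw [Polynomial.deriv]
    exact (hx0 x (le_of_lt hx)).2
  refine ⟨⌈x0⌉₊, ?_⟩
  intro n hn
  have hxn : x0 ≤ n := (Nat.le_ceil x0).trans (by exact_mod_cast hn)
  have h1 : 0 < F.eval (n : ℤ) := by
    have h2 := (hx0 n hxn).1
    have h3 := rp_eval F (n : ℤ)
    rw [Int.cast_natCast] at h3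
    rw [h3] at h2
    exact_mod_cast h2
  have h2 : F.eval (n : ℤ) < F.eval ((n + 1 : ℕ) : ℤ) := by
    have h3 := hmono (show (n : ℝ) ∈ Set.Ici x0 from hxn) (show ((n + 1 : ℕ) : ℝ) ∈ Set.Ici x0 by
      rw [Set.mem_Ici]; push_cast; linarith) (by push_cast; linarith)
    have h4 := rp_eval F (n : ℤ)
    have h5 := rp_eval F ((n + 1 : ℕ) : ℤ)
    rw [Int.cast_natCast] at h4 h5
    simp only at h3
    rw [h4, h5] at h3
    exact_mod_cast h3
  unfold va
  constructor
  · omega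
  · omega

/-- the value as a real number -/
theorem va_cast {F : ℤ[X]} {n₀ : ℕ} (hM : Mono F n₀) {n : ℕ} (hn : n₀ ≤ n) : ((va F n : ℕ) : ℤ) = F.eval (n : ℤ) := by
  have h1 := (hM n hn).1
  unfold va at h1 ⊢
  omega

theorem va_real {F : ℤ[X]} {n₀ : ℕ} (hM : Mono F n₀) {n : ℕ} (hn : n₀ ≤ n) : (va F n : ℝ) = (rp F).eval (n : ℝ) := by
  have h1 := va_cast hM hn
  have h2 := rp_eval F (n : ℤ)
  rw [Int.cast_natCast] at h2
  rw [h2, ← h1, Int.cast_natCast]

theorem va_strict {F : ℤ[X]} {n₀ : ℕ} (hM : Mono F n₀) {n n' : ℕ} (hn : n₀ ≤ n) (h : n < n') : va F n < va F n' := by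
  induction n' with
  | zero => omega
  | succ k ih =>
    rcases Nat.lt_or_ge n k with h1 | h1
    · exact (ih h1).trans (hM k (by omega)).2
    · have h2 : k = n := by omega
      rw [h2]
      exact (hM n hn).2

theorem va_ge {F : ℤ[X]} {n₀ : ℕ} (hM : Mono F n₀) {n : ℕ} (hn : n₀ ≤ n) : n - n₀ + 1 ≤ va F n := by
  induction n with
  | zero => 
    have := (hM 0 hn).1
    omega
  | succ k ih =>
    rcases Nat.lt_or_ge n₀ (k + 1) with h1 | h1
    · have h2 := ih (by omega)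
      have h3 := (hM k (by omega)).2
      omega
    · have h2 : n₀ = k + 1 := by omega
      have := (hM (k + 1) hn).1
      omega

theorem nu_spec {F : ℤ[X]} {n₀ : ℕ} (hM : Mono F n₀) (k : ℕ) :
    n₀ ≤ nu F n₀ k ∧ 2 ^ k ≤ va F (nu F n₀ k) ∧ ∀ n, n₀ ≤ n → n < nu F n₀ k → va F n < 2 ^ k := by
  have hne : {n | n₀ ≤ n ∧ 2 ^ k ≤ va F n}.Nonempty := by
    refine ⟨n₀ + 2 ^ k, Nat.le_add_right _ _, ?_⟩
    have h1 := va_ge hM (n := n₀ + 2 ^ k) (Nat.le_add_right _ _)
    rw [Nat.add_sub_cancel_left] at h1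
    exact (Nat.le_succ _).trans h1
  have h1 := Nat.sInf_mem hne
  refine ⟨h1.1, h1.2, ?_⟩
  intro n hn hlt
  by_contra hcon
  have h2 : n ∈ {n | n₀ ≤ n ∧ 2 ^ k ≤ va F n} := ⟨hn, not_lt.1 hcon⟩
  have h3 := Nat.sInf_le h2
  unfold nu at hlt
  omega

theorem nu_tendsto {F : ℤ[X]} {n₀ : ℕ} (hM : Mono F n₀) : Tendsto (nu F n₀) atTop atTop := by
  rw [tendsto_atTop]
  intro N
  filter_upwards [eventually_gt_atTop (va F (max n₀ N))] with k hk
  by_contra hcon
  obtain ⟨h1, h2, -⟩ := nu_spec hM k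
  have h3 : nu F n₀ k ≤ max n₀ N := by
    have := le_max_right n₀ N
    omega
  have h4 : va F (nu F n₀ k) ≤ va F (max n₀ N) := by
    rcases Nat.lt_or_ge (nu F n₀ k) (max n₀ N) with h5 | h5
    · exact (va_strict hM h1 h5).le
    · have : nu F n₀ k = max n₀ N := by omega
      rw [this]
  have h5 : k < 2 ^ k := Nat.lt_two_pow_self
  omega

theorem va_lim {F : ℤ[X]} {n₀ : ℕ} (hM : Mono F n₀) (hl : 0 < F.leadingCoeff) :
    Tendsto (fun n : ℕ => (va F n : ℝ) / (n : ℝ) ^ F.natDegree) atTop (𝓝 (rp F).leadingCoeff) := by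
  have h1 := (lead_lim (rp F) (rp_ne hl)).comp (tendsto_natCast_atTop_atTop (R := ℝ))
  rw [rp_deg] at h1
  refine h1.congr' ?_
  filter_upwards [eventually_ge_atTop n₀] with n hn
  simp only [Function.comp]
  rw [va_real hM hn]

/-- the inverse of the blocks -/
theorem nu_pow_lim {F : ℤ[X]} {n₀ : ℕ} (hM : Mono F n₀) (hl : 0 < F.leadingCoeff) :
    Tendsto (fun k : ℕ => (2 : ℝ) ^ k / (nu F n₀ k : ℝ) ^ F.natDegree) atTop (𝓝 (rp F).leadingCoeff) := by
  have hν := nu_tendsto hM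
  have h1 := (va_lim hM hl).comp hν
  have hν' : Tendsto (fun k => nu F n₀ k - 1) atTop atTop := (tendsto_sub_atTop_nat 1).comp hν
  have h2 := (va_lim hM hl).comp hν'
  -- the ratio
  have h3 : Tendsto (fun n : ℕ => ((n - 1 : ℕ) : ℝ) / n) atTop (𝓝 1) := by
    have h4 : Tendsto (fun n : ℕ => 1 - 1 / (n : ℝ)) atTop (𝓝 1) := by
      have h5 : Tendsto (fun n : ℕ => 1 / (n : ℝ)) atTop (𝓝 0) := tendsto_one_div_atTop_nhds_zero_nat
      have h6 := h5.const_sub 1
      rwa [sub_zero] at h6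
    refine h4.congr' ?_
    filter_upwards [eventually_ge_atTop 1] with n hn
    rw [Nat.cast_sub hn]
    have : (n : ℝ) ≠ 0 := by
      have : n ≠ 0 := by omega
      exact_mod_cast this
    field_simp
    push_cast
    ring
  have h4 := ((h3.comp hν).pow F.natDegree)
  rw [one_pow] at h4
  have h5 := h2.mul h4
  rw [mul_one] at h5
  refine tendsto_of_tendsto_of_tendsto_of_le_of_le' h5 h1 ?_ ?_
  · filter_upwards [hν.eventually_ge_atTop (n₀ + 2)] with k hk
    simp only [Function.comp]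
    have h6 : (0 : ℝ) < ((nu F n₀ k - 1 : ℕ) : ℝ) := by
      have : 0 < nu F n₀ k - 1 := by omega
      exact_mod_cast this
    have h7 : (0 : ℝ) < (nu F n₀ k : ℝ) := by
      have : 0 < nu F n₀ k := by omega
      exact_mod_cast this
    have h8 : (va F (nu F n₀ k - 1) : ℝ) ≤ 2 ^ k := by
      have := (nu_spec hM k).2.2 (nu F n₀ k - 1) (by omega) (by omega)
      exact_mod_cast this.le
    rw [div_pow]
    have h9 : (va F (nu F n₀ k - 1) : ℝ) / ((nu F n₀ k - 1 : ℕ) : ℝ) ^ F.natDegree *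
        (((nu F n₀ k - 1 : ℕ) : ℝ) ^ F.natDegree / (nu F n₀ k : ℝ) ^ F.natDegree) =
        (va F (nu F n₀ k - 1) : ℝ) / (nu F n₀ k : ℝ) ^ F.natDegree := by
      field_simp
    rw [h9]
    gcongr
  · filter_upwards with k
    simp only [Function.comp]
    have h8 : (2 : ℝ) ^ k ≤ (va F (nu F n₀ k) : ℝ) := by
      exact_mod_cast (nu_spec hM k).2.1
    gcongr

theorem nu_lim {F : ℤ[X]} {n₀ : ℕ} (hM : Mono F n₀) (hd : 1 ≤ F.natDegree) (hl : 0 < F.leadingCoeff) :
    Tendsto (fun k : ℕ => (nu F n₀ k : ℝ) / (2 : ℝ) ^ ((k : ℝ) / F.natDegree)) atTop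
      (𝓝 ((rp F).leadingCoeff ^ (-(1 / (F.natDegree : ℝ))))) := by
  have ha := rp_lead_pos hl
  have hd0 : (0 : ℝ) < F.natDegree := by exact_mod_cast hd
  have h1 := (nu_pow_lim hM hl).rpow_const (p := -(1 / (F.natDegree : ℝ))) (Or.inl ha.ne')
  refine h1.congr' ?_
  filter_upwards [(nu_tendsto hM).eventually_ge_atTop 1] with k hk
  have h7 : (0 : ℝ) < (nu F n₀ k : ℝ) := by
    have : 0 < nu F n₀ k := by omega
    exact_mod_cast this
  rw [Real.rpow_neg (by positivity), Real.div_rpow (by positivity) (by positivity), inv_div]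
  congr 1
  · rw [← Real.rpow_natCast, ← Real.rpow_mul h7.le, mul_one_div_cancel hd0.ne', Real.rpow_one]
  · rw [← Real.rpow_natCast, ← Real.rpow_mul (by norm_num)]
    congr 1
    ring

theorem log_lim {F : ℤ[X]} {n₀ : ℕ} (hM : Mono F n₀) (hl : 0 < F.leadingCoeff) :
    Tendsto (fun n : ℕ => Real.log (va F n) / Real.log n) atTop (𝓝 (F.natDegree : ℝ)) := by
  have ha := rp_lead_pos hl
  have h1 := (va_lim hM hl).log ha.ne'
  have hlog : Tendsto (fun n : ℕ => Real.log (n : ℝ)) atTop atTop :=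
    Real.tendsto_log_atTop.comp tendsto_natCast_atTop_atTop
  have h2 := h1.div_atTop hlog
  have h3 := h2.const_add (F.natDegree : ℝ)
  rw [add_zero] at h3
  refine h3.congr' ?_
  filter_upwards [eventually_ge_atTop n₀, eventually_ge_atTop 2] with n hn hn2
  have h4 : (0 : ℝ) < n := by
    have : 0 < n := by omega
    exact_mod_cast this
  have h5 : 0 < Real.log n := Real.log_pos (by exact_mod_cast hn2)
  have h6 : (0 : ℝ) < va F n := by exact_mod_cast (hM n hn).1
  rw [Real.log_div h6.ne' (by positivity), Real.log_pow]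
  field_simp
  ring

theorem t_MONO : J_MONO := by
  intro F hd hl
  obtain ⟨n₀, hn₀⟩ := exists_mono F hd hl
  refine ⟨⟨n₀, hn₀⟩, ⟨(rp F).leadingCoeff ^ (-(1 / (F.natDegree : ℝ))), ?_, fun n₁ hn₁ => nu_lim hn₁ hd hl⟩,
    log_lim hn₀ hl⟩
  exact Real.rpow_pos_of_pos (rp_lead_pos hl) _

end Pool.Agent.Q257.BH
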